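import Pool.Agent.T6.H71.QP.Defs

/-!
# A limit of non-isomorphic selective ultrafilters is a q-point which is not selective
-/

set_option autoImplicit false

namespace Pool.Agent.T6.H71.QP

open Set

theorem mem_fubiniLim {W : Ultrafilter ℕ} {V : ℕ → Ultrafilter ℕ} {A : Set ℕ} :
    A ∈ fubiniLim W V ↔ {n | {x | Nat.pair n x ∈ A} ∈ V n} ∈ W := Iff.rfl

theorem Nonprincipal.not_mem_finite {U : Ultrafilter ℕ} (h : Nonprincipal U) {A : Set ℕ}
    (hA : A.Finite) : A ∉ U := by
  intro hAU
  have h1 : ⋂ a ∈ A, ({a} : Set ℕ)ᶜ ∈ U :=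
    (Filter.biInter_mem hA).2 fun a _ => Ultrafilter.compl_mem_iff_notMem.2 (h a)
  have h2 := Filter.inter_mem hAU h1
  have h3 : A ∩ ⋂ a ∈ A, ({a} : Set ℕ)ᶜ = ∅ := by
    rw [eq_empty_iff_forall_notMem]
    rintro x ⟨hx, hx'⟩
    exact mem_iInter₂.1 hx' x hx rfl
  rw [h3] at h2
  exact U.empty_notMem h2

theorem Nonprincipal.mem_of_sdiff {U : Ultrafilter ℕ} (h : Nonprincipal U) {A B : Set ℕ}
    (hA : A ∈ U) (hAB : (A \ B).Finite) : B ∈ U := by
  have h1 := Filter.inter_mem hA (Ultrafilter.compl_mem_iff_notMem.2 (h.not_mem_finite hAB))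
  refine Filter.mem_of_superset h1 ?_
  rintro x ⟨hx, hx'⟩
  by_contra hcon
  exact hx' ⟨hx, hcon⟩

/-- selective ultrafilters have pseudointersections -/
theorem Selective.pseudo {U : Ultrafilter ℕ} (h : Selective U) (A : ℕ → Set ℕ)
    (hA : ∀ n, A n ∈ U) : ∃ X ∈ U, ∀ n, (X \ A n).Finite := by
  classical
  have hex : ∀ x : ℕ, ∃ n, ¬ (∀ k ≤ n, x ∈ A k ∧ k < x) := fun x =>
    ⟨x, fun hcon => lt_irrefl x (hcon x le_rfl).2⟩
  let f : ℕ → ℕ := fun x => Nat.find (hex x)
  have hf : ∀ x n, n < f x → x ∈ A n := by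
    intro x n hn
    have := Nat.find_min (hex x) hn
    push Not at this
    exact (this n le_rfl).1
  have hlarge : ∀ c, {x | c < f x} ∈ U := by
    intro c
    have h1 : ⋂ k ∈ {k | k ≤ c}, A k ∈ U := (Filter.biInter_mem (finite_le_nat c)).2 fun k _ => hA k
    have h2 : {x : ℕ | c < x} ∈ U := by
      rw [← Ultrafilter.compl_notMem_iff]
      apply h.1.not_mem_finite
      refine (finite_le_nat c).subset ?_
      intro x hx
      have hx' : ¬ c < x := hx
      exact not_lt.1 hx'
    refine Filter.mem_of_superset (Filter.inter_mem h1 h2) ?_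
    rintro x ⟨hx1, hx2⟩
    show c < Nat.find (hex x)
    rw [Nat.lt_find_iff]
    intro m hm
    push Not
    intro k hk
    exact ⟨mem_iInter₂.1 hx1 k (hk.trans hm), (hk.trans hm).trans_lt hx2⟩
  obtain ⟨X, hX, ⟨c, hc⟩ | hinj⟩ := h.2 f
  · exfalso
    have h1 := Filter.inter_mem hX (hlarge c)
    have h2 : X ∩ {x | c < f x} = ∅ := by
      rw [eq_empty_iff_forall_notMem]
      rintro x ⟨hx, hx'⟩
      have h3 : c < f x := hx'
      rw [hc x hx] at h3
      exact lt_irrefl c h3
    rw [h2] at h1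
    exact U.empty_notMem h1
  · refine ⟨X, hX, fun n => ?_⟩
    have h1 : (f '' (X \ A n)).Finite := by
      refine (finite_le_nat n).subset ?_
      rintro _ ⟨x, ⟨-, hx⟩, rfl⟩
      by_contra hcon
      exact hx (hf x n (not_le.1 hcon))
    exact h1.of_finite_image (hinj.mono sdiff_subset)

theorem Selective.ppoint {U : Ultrafilter ℕ} (h : Selective U) : PPoint U := by
  refine ⟨h.1, fun f => ?_⟩
  obtain ⟨X, hX, h1 | h1⟩ := h.2 f
  · exact ⟨X, hX, Or.inl h1⟩
  · refine ⟨X, hX, Or.inr fun m => ?_⟩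
    refine Set.Subsingleton.finite ?_
    rintro x ⟨hx, hx'⟩ y ⟨hy, hy'⟩
    exact h1 hx hy (hx'.trans hy'.symm)

/-- `f(U) ≠ V` for all functions `f`: `V` is not Rudin–Keisler below `U` -/
def Distinct (V : ℕ → Ultrafilter ℕ) : Prop :=
  ∀ n m, n ≠ m → ∀ f : ℕ → ℕ, (V n).map f ≠ V m

/-- The limit of pairwise non-isomorphic selective ultrafilters is a q-point. -/
theorem qpoint_lim {W : Ultrafilter ℕ} (hW : Nonprincipal W) {V : ℕ → Ultrafilter ℕ}
    (hV : ∀ n, Selective (V n)) (hd : Distinct V) : QPoint (fubiniLim W V) := by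
  classical
  refine ⟨fun k hk => ?_, fun f hf => ?_⟩
  · rw [mem_fubiniLim] at hk
    have h1 : {n | {x | Nat.pair n x ∈ ({k} : Set ℕ)} ∈ V n} = ∅ := by
      rw [eq_empty_iff_forall_notMem]
      intro n hn
      refine (hV n).1.not_mem_finite ?_ hn
      refine Set.Subsingleton.finite ?_
      intro x hx y hy
      have h2 : Nat.pair n x = Nat.pair n y := (show Nat.pair n x = k from hx).trans
        (show Nat.pair n y = k from hy).symm
      exact (Nat.pair_eq_pair.1 h2).2
    rw [h1] at hk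
    exact W.empty_notMem hk
  · -- the restriction to the fibre of `n`
    let F : ℕ → ℕ → ℕ := fun n x => f (Nat.pair n x)
    have hF : ∀ n m, {x | F n x = m}.Finite := by
      intro n m
      have h1 : {x | F n x = m} = (Nat.pair n) ⁻¹' {y | f y = m} := rfl
      rw [h1]
      exact (hf m).preimage (fun x _ y _ hxy => (Nat.pair_eq_pair.1 hxy).2)
    have h1 : ∀ n, ∃ X ∈ V n, InjOn (F n) X := by
      intro n
      obtain ⟨X, hX, ⟨c, hc⟩ | h2⟩ := (hV n).2 (F n)
      · exfalso
        exact (hV n).1.not_mem_finite ((hF n c).subset fun x hx => hc x hx) hX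
      · exact ⟨X, hX, h2⟩
    choose X hX hinj using h1
    have hne : ∀ n m, n ≠ m → (V n).map (F n) ≠ (V m).map (F m) := by
      intro n m hnm heq
      -- a left inverse of `F m` on `X m`
      let g : ℕ → ℕ := Function.invFunOn (F m) (X m)
      apply hd n m hnm (fun x => g (F n x))
      have h2 : ((V n).map (F n)).map g = ((V m).map (F m)).map g := by rw [heq]
      have h3 : ((V m).map (F m)).map g = V m := by
        apply Ultrafilter.coe_le_coe.1
        intro A hA
        show {x | g (F m x) ∈ A} ∈ V m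
        refine Filter.mem_of_superset (Filter.inter_mem (hX m) hA) ?_
        rintro x ⟨hx, hxA⟩
        show g (F m x) ∈ A
        have h4 : g (F m x) = x := (hinj m).leftInvOn_invFunOn hx
        rw [h4]
        exact hxA
      rw [← h3, ← h2]
      rfl
    have h2 : ∀ n m, ∃ B : Set ℕ, n ≠ m → B ∈ (V n).map (F n) ∧ B ∉ (V m).map (F m) := by
      intro n m
      by_cases hnm : n = m
      · exact ⟨∅, fun h => absurd hnm h⟩
      · have h3 := hne n m hnm
        by_contra hcon
        push Not at hcon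
        apply h3
        apply (Ultrafilter.coe_le_coe.1 ?_).symm
        intro A hA
        exact (hcon A).2 hA
    choose B hB using h2
    have h3 : ∀ n, ∃ C ∈ V n, C ⊆ X n ∧ ∀ m, n ≠ m → (C \ F n ⁻¹' (B n m)).Finite := by
      intro n
      obtain ⟨C, hC, hC'⟩ := (hV n).pseudo (fun m => if n = m then univ else F n ⁻¹' (B n m)) (by
        intro m
        show (if n = m then univ else F n ⁻¹' (B n m)) ∈ V n
        split_ifs with h
        · exact Filter.univ_mem
        · exact (hB n m h).1)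
      refine ⟨C ∩ X n, Filter.inter_mem hC (hX n), inter_subset_right, fun m hm => ?_⟩
      have h4 := hC' m
      simp only [if_neg hm] at h4
      exact h4.subset (sdiff_subset_sdiff_left inter_subset_left)
    choose C hC hCX hCB using h3
    -- `F n '' C n` is not in the image of `V m`
    have h4 : ∀ n m, n ≠ m → (F m ⁻¹' (F n '' C n))ᶜ ∈ V m := by
      intro n m hnm
      rw [Ultrafilter.compl_mem_iff_notMem]
      intro hcon
      apply (hB n m hnm).2
      show F m ⁻¹' (B n m) ∈ V m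
      refine (hV m).1.mem_of_sdiff hcon ?_
      have h5 : (F n '' (C n \ F n ⁻¹' (B n m))).Finite := (hCB n m hnm).image _
      have h6 : (F m ⁻¹' (F n '' (C n \ F n ⁻¹' (B n m)))).Finite := by
        have : F m ⁻¹' (F n '' (C n \ F n ⁻¹' (B n m))) =
            ⋃ k ∈ F n '' (C n \ F n ⁻¹' (B n m)), {x | F m x = k} := by
          ext x
          simp [eq_comm]
        rw [this]
        exact h5.biUnion fun k _ => hF m k
      refine h6.subset ?_
      rintro x ⟨⟨y, hy, hyx⟩, hx⟩
      refine ⟨y, ⟨hy, fun hcon' => hx ?_⟩, hyx⟩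
      show F m x ∈ B n m
      rw [← hyx]
      exact hcon'
    -- disjoint sets
    let D : ℕ → Set ℕ := fun n => C n ∩ ⋂ m ∈ {m | m < n}, (F n ⁻¹' (F m '' C m))ᶜ
    have hD : ∀ n, D n ∈ V n := fun n => Filter.inter_mem (hC n)
      ((Filter.biInter_mem (finite_lt_nat n)).2 fun m hm => h4 m n (ne_of_lt hm))
    have hdisj : ∀ n m x y, n < m → x ∈ D n → y ∈ D m → F n x ≠ F m y := by
      intro n m x y hnm hx hy heq
      have h5 := mem_iInter₂.1 hy.2 n hnm
      exact h5 ⟨x, hx.1, heq⟩
    refine ⟨{z | (Nat.unpair z).2 ∈ D (Nat.unpair z).1}, ?_, ?_⟩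
    · rw [mem_fubiniLim]
      refine Filter.mem_of_superset Filter.univ_mem fun n _ => ?_
      refine Filter.mem_of_superset (hD n) fun x hx => ?_
      show (Nat.unpair (Nat.pair n x)).2 ∈ D (Nat.unpair (Nat.pair n x)).1
      rw [Nat.unpair_pair]
      exact hx
    · intro z hz w hw hzw
      have h5 : ∀ z, f z = F (Nat.unpair z).1 (Nat.unpair z).2 := fun z => by
        show f z = f (Nat.pair _ _)
        rw [Nat.pair_unpair]
      rw [h5 z, h5 w] at hzw
      rcases lt_trichotomy (Nat.unpair z).1 (Nat.unpair w).1 with h6 | h6 | h6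
      · exact absurd hzw (hdisj _ _ _ _ h6 hz hw)
      · have h7 : (Nat.unpair z).2 = (Nat.unpair w).2 := by
          rw [h6] at hzw
          refine hinj _ (hCX _ ?_) (hCX _ hw.1) hzw
          rw [← h6]
          exact hz.1
        rw [← Nat.pair_unpair z, ← Nat.pair_unpair w, h6, h7]
      · exact absurd hzw.symm (hdisj _ _ _ _ h6 hw hz)

/-- It is not selective. -/
theorem not_selective_lim {W : Ultrafilter ℕ} (hW : Nonprincipal W) {V : ℕ → Ultrafilter ℕ}
    (hV : ∀ n, Nonprincipal (V n)) : ¬ Selective (fubiniLim W V) := by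
  rintro ⟨-, h⟩
  obtain ⟨X, hX, ⟨c, hc⟩ | hinj⟩ := h fun z => (Nat.unpair z).1
  · rw [mem_fubiniLim] at hX
    refine hW c (Filter.mem_of_superset hX fun n hn => ?_)
    by_contra hne
    have h1 : {x | Nat.pair n x ∈ X} = ∅ := by
      rw [eq_empty_iff_forall_notMem]
      intro x hx
      have h2 := hc _ hx
      rw [Nat.unpair_pair] at h2
      exact hne h2
    rw [mem_ofPred_eq, h1] at hn
    exact (V n).empty_notMem hn
  · rw [mem_fubiniLim] at hX
    obtain ⟨n, hn⟩ := W.nonempty_of_mem hX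
    refine (hV n).not_mem_finite ?_ hn
    refine Set.Subsingleton.finite ?_
    intro x hx y hy
    have h1 := hinj hx hy (by simp [Nat.unpair_pair])
    exact (Nat.pair_eq_pair.1 h1).2

theorem TukeyLE.refl (U : Ultrafilter ℕ) : TukeyLE U U :=
  ⟨id, fun _ h => h, fun _ _ _ _ h => h, fun B hB => ⟨B, hB, le_rfl⟩⟩

end Pool.Agent.T6.H71.QP
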