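import Pool.Agent.Helper185.DelUltra
import Pool.Agent.T6.H71.QP.Lim

/-!
# Under CH there are infinitely many non-isomorphic selective ultrafilters
-/

set_option autoImplicit false

namespace Pool.Agent.T6.H71.QP

open Set Filter

theorem exists_split {B : Set ℕ} (hB : B.Infinite) :
    ∃ C ⊆ B, C.Infinite ∧ (B \ C).Infinite := by
  have hd : ∃ s : ℕ → ℕ, Function.Injective s ∧ ∀ n, s n ∈ B := by
    have g := Set.Infinite.natEmbedding B hB
    refine ⟨fun n => (g n : ℕ), fun a b h => g.injective (Subtype.ext h), fun n => ?_⟩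
    exact (g n).2
  obtain ⟨s, hs, hsB⟩ := hd
  refine ⟨range fun n => s (2 * n), ?_, ?_, ?_⟩
  · rintro _ ⟨n, rfl⟩; exact hsB _
  · exact infinite_range_of_injective fun a b h => by have := hs h; omega
  · refine (infinite_range_of_injective (f := fun n => s (2 * n + 1)) fun a b h => by
      have := hs h; omega).mono ?_
    rintro _ ⟨n, rfl⟩
    refine ⟨hsB _, ?_⟩
    rintro ⟨m, hm⟩
    have := hs hm
    omega

/-- make a function constant or injective -/
theorem exists_ci {A : Set ℕ} (hA : A.Infinite) (f : ℕ → ℕ) :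
    ∃ B ⊆ A, B.Infinite ∧ ((∃ c, ∀ x ∈ B, f x = c) ∨ InjOn f B) := by
  classical
  by_cases h : (f '' A).Finite
  · have h1 : A ⊆ ⋃ c ∈ f '' A, {x ∈ A | f x = c} := fun x hx =>
      mem_iUnion₂.2 ⟨f x, ⟨x, hx, rfl⟩, hx, rfl⟩
    have h2 : ∃ c, {x ∈ A | f x = c}.Infinite := by
      by_contra hcon
      push Not at hcon
      exact hA ((h.biUnion fun c _ => hcon c).subset h1)
    obtain ⟨c, hc⟩ := h2
    exact ⟨_, fun x hx => hx.1, hc, Or.inl ⟨c, fun x hx => hx.2⟩⟩
  · let g : ℕ → ℕ := Function.invFunOn f A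
    refine ⟨g '' (f '' A), ?_, ?_, Or.inr ?_⟩
    · rintro _ ⟨_, ⟨x, hx, rfl⟩, rfl⟩
      exact Function.invFunOn_mem ⟨x, hx, rfl⟩
    · intro hfin
      apply h
      refine (hfin.image f).subset ?_
      rintro _ ⟨x, hx, rfl⟩
      exact ⟨g (f x), ⟨_, ⟨x, hx, rfl⟩, rfl⟩, Function.invFunOn_eq ⟨x, hx, rfl⟩⟩
    · rintro _ ⟨_, ⟨x, hx, rfl⟩, rfl⟩ _ ⟨_, ⟨y, hy, rfl⟩, rfl⟩ hxy
      have h1 : f (g (f x)) = f x := Function.invFunOn_eq ⟨x, hx, rfl⟩
      have h2 : f (g (f y)) = f y := Function.invFunOn_eq ⟨y, hy, rfl⟩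
      rw [h1, h2] at hxy
      rw [hxy]

/-- make the image of one set disjoint from the other one -/
theorem exists_dj {A B : Set ℕ} (hA : A.Infinite) (hB : B.Infinite) (f : ℕ → ℕ) :
    ∃ A' ⊆ A, ∃ B' ⊆ B, A'.Infinite ∧ B'.Infinite ∧ ∀ x ∈ A', f x ∉ B' := by
  obtain ⟨C, hCB, hC, hC'⟩ := exists_split hB
  by_cases h : {x ∈ A | f x ∈ C}.Infinite
  · exact ⟨_, fun x hx => hx.1, B \ C, sdiff_subset, h, hC', fun x hx hx' => hx'.2 hx.2⟩
  · refine ⟨{x ∈ A | f x ∉ C}, fun x hx => hx.1, C, hCB, ?_, hC, fun x hx => hx.2⟩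
    intro hfin
    apply hA
    refine ((not_infinite.1 h).union hfin).subset ?_
    intro x hx
    by_cases hxC : f x ∈ C
    · exact Or.inl ⟨hx, hxC⟩
    · exact Or.inr ⟨hx, hxC⟩

/-- Under CH there is a sequence of pairwise non-isomorphic selective ultrafilters. -/
theorem exists_selective (hCH : Cardinal.aleph 1 = Cardinal.continuum.{0}) :
    ∃ V : ℕ → Ultrafilter ℕ, (∀ n, Selective (V n)) ∧ Distinct V := by
  classical
  obtain ⟨I, _, _, hI, hunc, e, he⟩ :=
    Pool.Agent.Helper185.Del.exists_enum (T := (ℕ → ℕ) × (ℕ × ℕ)) (by simp) hCH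
  obtain ⟨x, hx⟩ := Pool.Agent.Helper185.Del.exists_rec (I := I) (Y := ℕ → Set ℕ)
    (fun i g y => (∀ n, (y n).Infinite) ∧ (∀ n j hj, (y n \ g j hj n).Finite) ∧
      (∀ n, (∃ c, ∀ a ∈ y n, (e i).1 a = c) ∨ InjOn (e i).1 (y n)) ∧
      ((e i).2.1 ≠ (e i).2.2 → ∀ a ∈ y (e i).2.1, (e i).1 a ∉ y (e i).2.2)) (by
      intro i g hg
      have h1 : ∀ n, ∃ y : Set ℕ, y.Infinite ∧ ∀ j hj, (y \ g j hj n).Finite := fun n =>
        Pool.Agent.Helper185.Del.exists_pseudo_tower (hI i) (g := fun j hj => g j hj n)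
          (fun j hj => (hg j hj).1 n) (fun j hj k hk hjk => (hg k hk).2.1 n j hjk)
      choose y hy1 hy2 using h1
      choose z hz1 hz2 hz3 using fun n => exists_ci (hy1 n) (e i).1
      by_cases hne : (e i).2.1 = (e i).2.2
      · exact ⟨z, hz2, fun n j hj => (hy2 n j hj).subset (sdiff_subset_sdiff_left (hz1 n)), hz3,
          fun h => absurd hne h⟩
      · obtain ⟨A, hA, B, hB, hA1, hB1, hAB⟩ := exists_dj (hz2 (e i).2.1) (hz2 (e i).2.2) (e i).1
        have hsub : ∀ n, (if n = (e i).2.1 then A else if n = (e i).2.2 then B else z n) ⊆ z n := by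
          intro n
          split_ifs with h h'
          · rw [h]; exact hA
          · rw [h']; exact hB
          · exact le_rfl
        refine ⟨fun n => if n = (e i).2.1 then A else if n = (e i).2.2 then B else z n,
          fun n => ?_, fun n j hj => ?_, fun n => ?_, fun _ a ha => ?_⟩
        · show (if n = (e i).2.1 then A else if n = (e i).2.2 then B else z n).Infinite
          split_ifs
          · exact hA1
          · exact hB1
          · exact hz2 n
        · exact (hy2 n j hj).subset (sdiff_subset_sdiff_left ((hsub n).trans (hz1 n)))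
        · rcases hz3 n with ⟨c, hc⟩ | h
          · exact Or.inl ⟨c, fun a ha => hc a (hsub n ha)⟩
          · exact Or.inr (h.mono (hsub n))
        · simp only [if_true, if_neg (Ne.symm hne)] at ha ⊢
          exact hAB a ha)
  have htow : ∀ n i j, j ≤ i → (x i n \ x j n).Finite := by
    intro n i j hij
    rcases hij.eq_or_lt with rfl | hij
    · simp
    · exact (hx i).2.1 n j hij
  have hbdd : ∀ s : ℕ → I, ∃ i, ∀ k, s k ≤ i := by
    intro s
    by_contra hcon
    push Not at hcon
    apply hunc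
    refine (countable_iUnion fun k => hI (s k)).mono ?_
    intro i _
    obtain ⟨k, hk⟩ := hcon i
    exact mem_iUnion.2 ⟨k, hk⟩
  have hIne : Nonempty I := by
    by_contra hcon
    rw [not_nonempty_iff] at hcon
    exact hunc (by rw [univ_eq_empty_iff.2 hcon]; exact countable_empty)
  -- the filters
  let F : ℕ → Filter ℕ := fun n =>
    { sets := {A | ∃ i, (x i n \ A).Finite}
      univ_sets := ⟨hIne.some, by simp⟩
      sets_of_superset := by
        rintro A B ⟨i, hi⟩ hAB
        exact ⟨i, hi.subset (sdiff_subset_sdiff_right hAB)⟩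
      inter_sets := by
        rintro A B ⟨i, hi⟩ ⟨j, hj⟩
        refine ⟨max i j, ?_⟩
        refine (((htow n (max i j) i (le_max_left _ _)).union hi).union
          ((htow n (max i j) j (le_max_right _ _)).union hj)).subset ?_
        rintro a ⟨ha, hab⟩
        by_cases h1 : a ∈ A
        · have h2 : a ∉ B := fun h2 => hab ⟨h1, h2⟩
          right
          by_cases h3 : a ∈ x j n
          · exact Or.inr ⟨h3, h2⟩
          · exact Or.inl ⟨ha, h3⟩
        · left
          by_cases h3 : a ∈ x i n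
          · exact Or.inr ⟨h3, h1⟩
          · exact Or.inl ⟨ha, h3⟩ }
  have hmem : ∀ n A, A ∈ F n ↔ ∃ i, (x i n \ A).Finite := fun n A => Iff.rfl
  have hult : ∀ n A, Aᶜ ∉ F n ↔ A ∈ F n := by
    intro n A
    constructor
    · intro hA
      obtain ⟨i, hi⟩ := he (A.indicator 1, (0, 0))
      rcases (hx i).2.2.1 n with ⟨c, hc⟩ | hinj
      · rw [hi] at hc
        by_cases hc1 : c = 1
        · refine ⟨i, ?_⟩
          convert finite_empty (α := ℕ)
          rw [eq_empty_iff_forall_notMem]
          rintro a ⟨ha, ha'⟩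
          have h1 : (A.indicator 1 a : ℕ) = c := hc a ha
          rw [indicator_of_notMem ha', hc1] at h1
          exact absurd h1 (by decide)
        · exfalso
          apply hA
          refine ⟨i, ?_⟩
          convert finite_empty (α := ℕ)
          rw [eq_empty_iff_forall_notMem]
          rintro a ⟨ha, ha'⟩
          have h1 : (A.indicator 1 a : ℕ) = c := hc a ha
          rw [indicator_of_mem (not_not.1 ha')] at h1
          exact hc1 h1.symm
      · exfalso
        rw [hi] at hinj
        have h1 : (A.indicator 1 '' x i n : Set ℕ).Finite := by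
          refine (finite_le_nat 1).subset ?_
          rintro _ ⟨a, -, rfl⟩
          show (A.indicator 1 a : ℕ) ≤ 1
          by_cases ha : a ∈ A
          · rw [indicator_of_mem ha]; exact le_rfl
          · rw [indicator_of_notMem ha]; exact Nat.zero_le _
        exact (hx i).1 n (h1.of_finite_image hinj)
    · rintro ⟨i, hi⟩ ⟨j, hj⟩
      apply (hx (max i j)).1 n
      refine (((htow n (max i j) i (le_max_left _ _)).union hi).union
        ((htow n (max i j) j (le_max_right _ _)).union hj)).subset ?_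
      intro a ha
      by_cases h1 : a ∈ A
      · right
        by_cases h3 : a ∈ x j n
        · exact Or.inr ⟨h3, not_not.2 h1⟩
        · exact Or.inl ⟨ha, h3⟩
      · left
        by_cases h3 : a ∈ x i n
        · exact Or.inr ⟨h3, h1⟩
        · exact Or.inl ⟨ha, h3⟩
  let V : ℕ → Ultrafilter ℕ := fun n => Ultrafilter.ofComplNotMemIff (F n) (hult n)
  have hV : ∀ n A, A ∈ V n ↔ ∃ i, (x i n \ A).Finite := fun n A => Iff.rfl
  have hxV : ∀ n i, x i n ∈ V n := fun n i => (hV n _).2 ⟨i, by simp⟩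
  refine ⟨V, fun n => ⟨fun k hk => ?_, fun f => ?_⟩, ?_⟩
  · obtain ⟨i, hi⟩ := (hV n _).1 hk
    exact (hx i).1 n ((hi.union (finite_singleton k)).subset fun a ha => by
      by_cases h : a ∈ ({k} : Set ℕ)
      · exact Or.inr h
      · exact Or.inl ⟨ha, h⟩)
  · obtain ⟨i, hi⟩ := he (f, (0, 0))
    have h1 := (hx i).2.2.1 n
    rw [hi] at h1
    exact ⟨x i n, hxV n i, h1⟩
  · intro n m hnm f heq
    obtain ⟨i, hi⟩ := he (f, (n, m))
    have h1 := (hx i).2.2.2
    rw [hi] at h1
    have h2 := h1 hnm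
    have h3 : x i m ∈ (V n).map f := by
      rw [heq]
      exact hxV m i
    have h4 : {a | f a ∈ x i m} ∈ V n := h3
    have h5 := Filter.inter_mem (hxV n i) h4
    have h6 : x i n ∩ {a | f a ∈ x i m} = ∅ := by
      rw [eq_empty_iff_forall_notMem]
      rintro a ⟨ha, ha'⟩
      exact h2 a ha ha'
    rw [h6] at h5
    exact (V n).empty_notMem h5

end Pool.Agent.T6.H71.QP
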