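import Mathlib

/-!
# q-points, p-points, selective ultrafilters, Fubini iterates: definitions
-/

set_option autoImplicit false

namespace Pool.Agent.T6.H71.QP

open Set

/-- `U` is nonprincipal. -/
def Nonprincipal (U : Ultrafilter ℕ) : Prop := ∀ n : ℕ, ({n} : Set ℕ) ∉ U

/-- `U` is a p-point: nonprincipal, and every `f` is constant or finite-to-one on a set in `U`. -/
def PPoint (U : Ultrafilter ℕ) : Prop :=
  Nonprincipal U ∧ ∀ f : ℕ → ℕ, ∃ X ∈ U, (∃ c, ∀ x ∈ X, f x = c) ∨ ∀ m, {x | x ∈ X ∧ f x = m}.Finite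

/-- `U` is a q-point: nonprincipal, and every finite-to-one `f` is injective on a set in `U`. -/
def QPoint (U : Ultrafilter ℕ) : Prop :=
  Nonprincipal U ∧ ∀ f : ℕ → ℕ, (∀ m, {x | f x = m}.Finite) → ∃ X ∈ U, InjOn f X

/-- `U` is selective: nonprincipal, and every `f` is constant or injective on a set in `U`. -/
def Selective (U : Ultrafilter ℕ) : Prop :=
  Nonprincipal U ∧ ∀ f : ℕ → ℕ, ∃ X ∈ U, (∃ c, ∀ x ∈ X, f x = c) ∨ InjOn f X

/-- `V ≤_T U`: there is a monotone map from `U` to `V` with cofinal range. -/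
def TukeyLE (V U : Ultrafilter ℕ) : Prop :=
  ∃ g : Set ℕ → Set ℕ, (∀ A ∈ U, g A ∈ V) ∧ (∀ A ∈ U, ∀ B ∈ U, A ⊆ B → g A ⊆ g B) ∧
    ∀ B ∈ V, ∃ A ∈ U, g A ⊆ B

/-- The Fubini limit `lim_{n → W} V n`, coded on `ℕ` by the pairing function: it consists of the
sets `A` such that `{n | {x | Nat.pair n x ∈ A} ∈ V n} ∈ W`. -/
def fubiniLim (W : Ultrafilter ℕ) (V : ℕ → Ultrafilter ℕ) : Ultrafilter ℕ :=
  W.bind fun n => (V n).map (Nat.pair n)

/-- The Fubini iterates of p-points of depth `≤ k`. -/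
inductive FubiniIterate : ℕ → Ultrafilter ℕ → Prop
  | ppoint (U : Ultrafilter ℕ) : PPoint U → FubiniIterate 1 U
  | mono (k : ℕ) (U : Ultrafilter ℕ) : FubiniIterate k U → FubiniIterate (k + 1) U
  | lim (k : ℕ) (W : Ultrafilter ℕ) (V : ℕ → Ultrafilter ℕ) : PPoint W →
      (∀ n, FubiniIterate k (V n)) → FubiniIterate (k + 1) (fubiniLim W V)

end Pool.Agent.T6.H71.QP
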